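import Pool.Agent.Y241.PW.B
import Pool.Agent.Y241.PW.C

set_option autoImplicit false

/-!
# The number of simple modules is not bounded by a constant times `p ^ mt`

Let `k` be an algebraically closed field of characteristic three. For every `r` there are a
restricted Lie algebra of dimension `8 r` and of maximal toral rank `r` and a character `χ` whose
reduced enveloping algebra has at least `4 ^ r` pairwise non-isomorphic simple modules. So the bound
`3 ^ mt` fails by a factor of at least `(4 / 3) ^ mt`, and there is no constant `C` for which the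
number of simple modules is at most `C * 3 ^ mt`.

The Lie algebra is the direct sum of `r` copies of the algebra of dimension eight of the earlier
result `TooManySimples`. Commuting homomorphisms from `r` copies of the reduced enveloping algebra
to the tensor product of nontrivial quotients give simple modules; these are separated by elements
of the `r` copies.
-/

namespace Pool.Agent.Results.MP_52c914_al.UnboundedRatio

open Pool.Agent.Helper700.Red Pool.Agent.Y241.PW

universe u

/-- a nontrivial algebra with a homomorphism from the reduced enveloping algebra of the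
algebra of dimension eight -/
structure Quo (k : Type u) [Field k] [CharP k 3] where
  B : Type u
  ring : Ring B
  alg : Algebra k B
  nt : Nontrivial B
  f : RE k →ₐ[k] B

attribute [local instance] Quo.ring Quo.alg Quo.nt

variable {k : Type u} [Field k] [CharP k 3]

/-- the quotients of the first kind -/
noncomputable def quo1 (a : k) (ha : a ^ 3 = a) : Quo k := ⟨_, _, _, inferInstance, f1 a ha⟩

/-- the quotient of the second kind -/
noncomputable def quo3 (k : Type u) [Field k] [CharP k 3] : Quo k := ⟨_, _, _, inferInstance, f3 k⟩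

/-- `q` and `q'` are separated by an element -/
def Sep (q q' : Quo k) : Prop := ∃ c, q.f c = 0 ∧ q'.f c = 1

theorem sep11 (a b : k) (ha : a ^ 3 = a) (hb : b ^ 3 = b) (hab : a ≠ b) :
    Sep (quo1 a ha) (quo1 b hb) := by
  refine ⟨algebraMap k _ (b - a)⁻¹ * (cU - algebraMap k _ a), ?_, ?_⟩
  · show f1 a ha _ = 0
    rw [map_mul, f1_cU, mul_zero]
  · show f1 b hb _ = 1
    have h1 := f1_cU b hb
    rw [map_sub, AlgHom.commutes, sub_eq_zero] at h1
    rw [map_mul, map_sub, AlgHom.commutes, AlgHom.commutes, h1, ← map_sub, ← map_mul,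
      inv_mul_cancel₀ (sub_ne_zero.2 hab.symm), map_one]

theorem sep13 (a : k) (ha : a ^ 3 = a) : Sep (quo1 a ha) (quo3 k) := by
  refine ⟨cC * (cC * cC), ?_, ?_⟩
  · show f1 a ha _ = 0
    rw [map_mul, f1_cC, zero_mul]
  · show f3 k _ = 1
    have h1 := f3_cC (k := k)
    rwa [map_sub, map_one, sub_eq_zero] at h1

theorem sep31 (a : k) (ha : a ^ 3 = a) : Sep (quo3 k) (quo1 a ha) := by
  obtain ⟨c, h1, h2⟩ := sep13 a ha
  exact ⟨1 - c, by rw [map_sub, map_one, h2, sub_self], by rw [map_sub, map_one, h1, sub_zero]⟩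

/-- the four quotients -/
noncomputable def fam (k : Type u) [Field k] [CharP k 3] : Fin 4 → Quo k :=
  ![quo1 0 (by simp), quo1 1 (by simp), quo1 (-1) (by norm_num), quo3 k]

theorem fam_sep (a b : Fin 4) (hab : a ≠ b) : Sep (fam k a) (fam k b) := by
  have h3 : (3 : k) = 0 := PL.three_eq_zero
  have n01 : (0 : k) ≠ 1 := zero_ne_one
  have n02 : (0 : k) ≠ -1 := by intro h; exact one_ne_zero (by linear_combination h : (1 : k) = 0)
  have n12 : (1 : k) ≠ -1 := by
    intro h; exact one_ne_zero (by linear_combination h3 - h : (1 : k) = 0)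
  fin_cases a <;> fin_cases b
  · exact absurd rfl hab
  · exact sep11 _ _ _ _ n01
  · exact sep11 _ _ _ _ n02
  · exact sep13 _ _
  · exact sep11 _ _ _ _ n01.symm
  · exact absurd rfl hab
  · exact sep11 _ _ _ _ n12
  · exact sep13 _ _
  · exact sep11 _ _ _ _ n02.symm
  · exact sep11 _ _ _ _ n12.symm
  · exact absurd rfl hab
  · exact sep13 _ _
  · exact sep31 _ _
  · exact sep31 _ _
  · exact sep31 _ _
  · exact absurd rfl hab

theorem result (k : Type u) [Field k] [IsAlgClosed k] [CharP k 3] :
    -- dimension `8 r`, maximal toral rank `r`, and at least `4 ^ r` simple modules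
    (∀ r : ℕ, ∃ (L : Type u) (_ : LieRing L) (_ : LieAlgebra k L) (_ : FiniteDimensional k L)
      (P : PMap 3 k L) (χ : Module.Dual k L),
      Module.finrank k L = 8 * r ∧ mt P = r ∧ ∀ n, n < 4 ^ r → MoreSimplesThan (RedEnv P χ) n) ∧
    -- the number of simple modules is not bounded by a constant times `3 ^ mt`
    (∀ C : ℕ, ∃ (L : Type u) (_ : LieRing L) (_ : LieAlgebra k L) (_ : FiniteDimensional k L)
      (P : PMap 3 k L) (χ : Module.Dual k L), MoreSimplesThan (RedEnv P χ) (C * 3 ^ mt P)) := by
  have hf : Fact (Nat.Prime 3) := ⟨Nat.prime_three⟩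
  obtain ⟨t, ht⟩ := IsAlgClosed.exists_pow_nat_eq (-1 : k) (n := 2) (by norm_num)
  have h3 : (3 : k) = 0 := PL.three_eq_zero
  have h1 : (-1 : k) ≠ 1 := by
    intro h
    exact one_ne_zero (by linear_combination h3 + h : (1 : k) = 0)
  have ht0 : t ≠ 0 := by
    rintro rfl
    exact one_ne_zero (by linear_combination ht : (1 : k) = 0)
  have key : ∀ r : ℕ, ∃ (L : Type u) (_ : LieRing L) (_ : LieAlgebra k L)
      (_ : FiniteDimensional k L) (P : PMap 3 k L) (χ : Module.Dual k L),
      Module.finrank k L = 8 * r ∧ mt P = r ∧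
      ∀ n, n < 4 ^ r → MoreSimplesThan (RedEnv P χ) n := by
    intro r
    refine ⟨Pow r (PL k), inferInstance, inferInstance, inferInstance, Pow.pmap r PL.P,
      Pow.char r chi, ?_, mt_pow ⟨t, ht0, by rw [ht]; exact h1⟩ r, ?_⟩
    · rw [Pow.finrank]
      have : Module.finrank k (PL k) = 8 := Module.finrank_fin_fun k
      rw [this, mul_comm]
    · intro n hn
      exact count (fun a => (fam k a).B) (fun a => (fam k a).f) fam_sep r n hn
  refine ⟨key, fun C => ?_⟩
  obtain ⟨r, hr⟩ : ∃ r : ℕ, C * 3 ^ r < 4 ^ r := by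
    have h4 : Filter.Tendsto (fun r : ℕ => ((4 : ℝ) / 3) ^ r) Filter.atTop Filter.atTop :=
      tendsto_pow_atTop_atTop_of_one_lt (by norm_num)
    obtain ⟨r, hr⟩ := (h4.eventually (Filter.eventually_gt_atTop (C : ℝ))).exists
    refine ⟨r, ?_⟩
    rw [div_pow, lt_div_iff₀ (by positivity)] at hr
    exact_mod_cast hr
  obtain ⟨L, i1, i2, i3, P, χ, -, hmt, hs⟩ := key r
  exact ⟨L, i1, i2, i3, P, χ, hs _ (by rw [hmt]; exact hr)⟩

end Pool.Agent.Results.MP_52c914_al.UnboundedRatio
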